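import Mathlib

set_option autoImplicit false

namespace Pool.Agent.Results.MP_3b4475_gt.Main

open Set Topology Filter TopologicalSpace MeasureTheory
open scoped ENNReal NNReal

/-- Metric measure spaces. -/
structure MM : Type 1 where
  X : Type
  [met : MetricSpace X]
  [cpl : CompleteSpace X]
  [sep : SeparableSpace X]
  μ : @Measure X (borel X)
  [pr : @IsProbabilityMeasure X (borel X) μ]

attribute [instance] MM.met MM.cpl MM.sep

instance (A : MM) : MeasurableSpace A.X := borel A.X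

instance (A : MM) : BorelSpace A.X := ⟨rfl⟩

/-- A measure preserving isometry of the supports. -/
def Iso (A B : MM) : Prop := ∃ f : A.μ.support → B.μ.support, Isometry f ∧
  (A.μ.comap Subtype.val).map (fun x => (f x : B.X)) = B.μ

/-- The isomorphism classes. -/
def XX : Type 1 := Quot Iso

/-- Lebesgue measure on the unit interval. -/
noncomputable def L : Measure ℝ := volume.restrict (Ico 0 1)

/-- The condition on a number in the definition of the box distance. -/
def Near (ε : ℝ≥0) (a b : XX) : Prop := ∃ A B : MM, Quot.mk _ A = a ∧ Quot.mk _ B = b ∧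
  ∃ (φ : ℝ → A.X) (ψ : ℝ → B.X) (I : Set ℝ), Measurable φ ∧ L.map φ = A.μ ∧ Measurable ψ ∧
    L.map ψ = B.μ ∧ MeasurableSet I ∧ 1 - ε ≤ L.real I ∧
    ∀ s ∈ I, ∀ t ∈ I, |dist (φ s) (φ t) - dist (ψ s) (ψ t)| ≤ ε

/-- The box distance. -/
noncomputable def box (a b : XX) : ℝ≥0∞ := ⨅ (ε : ℝ≥0) (_ : Near ε a b), ε

/-- The topology of the box distance. -/
instance : TopologicalSpace XX where
  IsOpen U := ∀ a ∈ U, ∃ δ > 0, ∀ b, box a b < δ → b ∈ U
  isOpen_univ _ _ := ⟨1, one_pos, fun _ _ => trivial⟩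
  isOpen_inter _ _ h k a m := by
    obtain ⟨δ, p, q⟩ := h a m.1
    obtain ⟨η, r, s⟩ := k a m.2
    exact ⟨min δ η, lt_min p r, fun b c => ⟨q b (lt_min_iff.1 c).1, s b (lt_min_iff.1 c).2⟩⟩
  isOpen_sUnion _ h a := fun ⟨U, u, m⟩ => (h U u a m).imp fun _ k =>
    ⟨k.1, fun b c => ⟨U, u, k.2 b c⟩⟩

/-- The closed sets. -/
def F : Type 1 := {A : Set XX // IsClosed A}

/-- Kuratowski-Painleve convergence of a net. -/
def KP {ι : Type} [Preorder ι] (A : ι → F) (B : F) : Prop :=
  (∀ x, (∀ U ∈ 𝓝 x, ∃ᶠ i in atTop, ((A i).1 ∩ U).Nonempty) → x ∈ B.1) ∧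
    ∀ x ∈ B.1, ∀ U ∈ 𝓝 x, ∀ᶠ i in atTop, ((A i).1 ∩ U).Nonempty

/-- The finest topology in which such nets converge. -/
noncomputable instance τK : TopologicalSpace F :=
  sInf {t | ∀ (ι : Type) [Preorder ι] [IsDirectedOrder ι] [Nonempty ι] (A : ι → F) (B : F),
    KP A B → Tendsto A atTop (@nhds F t B)}

instance (A : MM) : IsProbabilityMeasure A.μ := A.pr

instance (A : MM) : SecondCountableTopology A.X := UniformSpace.secondCountable_of_separable _

instance : IsProbabilityMeasure L := ⟨by simp [L]⟩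

theorem ms (A : Type) [PseudoMetricSpace A] [MeasurableSpace A] [BorelSpace A]
    [SecondCountableTopology A] (s : ℝ) : MeasurableSet {p : A × A | s < dist p.1 p.2} :=
  (isOpen_lt continuous_const continuous_dist).measurableSet

theorem mp {A B : Type} [PseudoMetricSpace B] [MeasurableSpace B] [BorelSpace B]
    [SecondCountableTopology B] [MeasurableSpace A] (μ : Measure A) [IsFiniteMeasure μ]
    {f : A → B} (h : Measurable f) (s : ℝ) :
    ((μ.map f).prod (μ.map f)).real {p | s < dist p.1 p.2} =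
      (μ.prod μ).real {p | s < dist (f p.1) (f p.2)} := by
  rw [Measure.map_prod_map _ _ h h, map_measureReal_apply (h.prodMap h) (ms B s)]
  rfl

noncomputable def Φ (s : ℝ) : XX → ℝ :=
  Quot.lift (fun A => (A.μ.prod A.μ).real {p | s < dist p.1 p.2}) fun A B ⟨f, h, k⟩ => by
    have m := A.μ.isClosed_support.measurableSet
    have : (A.μ.comap Subtype.val).map (Subtype.val : A.μ.support → A.X) = A.μ := by
      rw [map_comap_subtype_coe m]
      exact Measure.restrict_eq_self_of_ae_mem Measure.support_mem_ae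
    rw [← k, mp _ (f := fun x => (f x : B.X)) (continuous_subtype_val.comp h.continuous).measurable]
    conv_lhs => rw [← this, mp _ measurable_subtype_coe]
    congr! 4 with p
    exact (h.dist_eq _ _).symm

theorem sym {ε : ℝ≥0} {a b : XX} : Near ε a b → Near ε b a :=
  fun ⟨A, B, p, q, φ, ψ, I, a, b, c, d, e, f, g⟩ =>
    ⟨B, A, q, p, ψ, φ, I, c, d, a, b, e, f, fun s x t y => (abs_sub_comm _ _).trans_le (g s x t y)⟩

theorem key {ε : ℝ≥0} {a b : XX} (h : Near ε a b) (s : ℝ) : Φ (s + ε) b ≤ Φ s a + 2 * ε := by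
  obtain ⟨A, B, rfl, rfl, φ, ψ, I, a, b, c, d, e, f, g⟩ := h
  change (B.μ.prod B.μ).real _ ≤ (A.μ.prod A.μ).real _ + _
  rw [← b, ← d, mp _ a, mp _ c]
  have : L.real Iᶜ ≤ ε := by rw [probReal_compl_eq_one_sub e]; linarith
  refine (measureReal_mono (s₂ := {p | s < dist (φ p.1) (φ p.2)} ∪ (Iᶜ ×ˢ univ ∪ univ ×ˢ Iᶜ))
    fun p hp => by_contra fun n => ?_).trans ((measureReal_union_le _ _).trans
    (add_le_add le_rfl ((measureReal_union_le _ _).trans ?_)))
  · simp only [mem_union, mem_setOf, mem_prod, mem_compl_iff, mem_univ, and_true, true_and, not_or,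
      not_not, not_lt] at n hp
    linarith [(abs_le.1 (g _ n.2.1 _ n.2.2)).1, n.1]
  · simp only [measureReal_prod_prod, probReal_univ]
    linarith

theorem op {U : Set XX} (h : ∀ a ∈ U, ∃ δ : ℝ, 0 < δ ∧ ∀ b (ε : ℝ≥0), ε < δ → Near ε a b → b ∈ U) :
    IsOpen U := fun a m => by
  obtain ⟨δ, p, q⟩ := h a m
  refine ⟨.ofReal δ, by simpa using p, fun b c => ?_⟩
  simp only [box, iInf_lt_iff] at c
  obtain ⟨ε, n, c⟩ := c
  exact q b ε (by simpa using ENNReal.coe_lt_ofReal.1 c) n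

noncomputable def w (ε n : ℝ) (u : ℝ) : ℝ := if u < ε then n else 0

theorem mw (ε n : ℝ) : Measurable (w ε n) :=
  Measurable.ite measurableSet_Iio measurable_const measurable_const

noncomputable def y (ε n : ℝ) : XX :=
  Quot.mk _ { X := ℝ, μ := L.map (w ε n), pr := Measure.isProbabilityMeasure_map (mw ε n).aemeasurable }

theorem y1 (ε n s : ℝ) : Φ s (y ε n) = (L.prod L).real {p | s < dist (w ε n p.1) (w ε n p.2)} :=
  mp L (mw ε n) s

theorem y2 (ε : ℝ≥0) (n : ℝ) : Near ε (y 0 0) (y ε n) :=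
  ⟨_, _, rfl, rfl, w 0 0, w ε n, Ici ε, mw _ _, rfl, mw _ _, rfl, measurableSet_Ici, by
    rw [L, measureReal_restrict_apply measurableSet_Ici, inter_comm, Ico_inter_Ici]
    simp, fun s a t b => by
      change |dist (w 0 0 s) (w 0 0 t) - dist (w ε n s) (w ε n t)| ≤ _
      simp [w, a.out.not_gt, b.out.not_gt]⟩

theorem y3 {ε n s : ℝ} (a : 0 ≤ ε) (b : ε ≤ 1) (c : s < |n|) : ε * (1 - ε) ≤ Φ s (y ε n) := by
  rw [y1]
  refine le_trans ?_ (measureReal_mono (s₁ := Ico 0 ε ×ˢ Ico ε 1) fun p h => by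
    simpa [w, h.1.2, h.2.1.not_gt] using c)
  rw [measureReal_prod_prod, L, measureReal_restrict_apply measurableSet_Ico,
    measureReal_restrict_apply measurableSet_Ico, inter_eq_left.2 (Ico_subset_Ico_right b),
    inter_eq_left.2 (Ico_subset_Ico_left a)]
  simp [a, b]

def cl (a : XX) : F := ⟨closure {a}, isClosed_closure⟩

theorem cv {A : ℕ → XX} {B : F} (h : ∀ x, MapClusterPt x atTop A → x ∈ B.1)
    (k : ∀ x ∈ B.1, Tendsto A atTop (𝓝 x)) : Tendsto (fun n => cl (A n)) atTop (𝓝 B) := by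
  refine le_trans ?_ (nhds_sInf (a := B)).ge
  refine le_iInf₂ fun t ht => ht ℕ _ B ⟨fun x a => h x (mapClusterPt_iff_frequently.2 fun U u =>
    (a _ (interior_mem_nhds.2 u)).mono fun n ⟨z, c, d⟩ => ?_), fun x a U u =>
      ((k x a).eventually_mem u).mono fun n c => ⟨A n, subset_closure rfl, c⟩⟩
  obtain ⟨_, c, rfl⟩ := mem_closure_iff.1 c _ isOpen_interior d
  exact interior_subset c

theorem tb (ε : ℝ≥0) (b : XX) (h : Near ε (y 0 0) b) {s : ℝ} (k : ε ≤ s) : Φ s b ≤ 2 * ε := by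
  have := key h (s - ε)
  rw [y1] at this
  simpa [w, (sub_nonneg.2 k).not_gt] using this

theorem esc {ε : ℝ} (a : 0 < ε) (b : ε < 1) :
    Tendsto (fun n : ℕ => cl (y ε n)) atTop (𝓝 ⟨∅, isClosed_empty⟩) := by
  refine cv (fun x h => ?_) fun _ h => h.elim
  obtain ⟨A, rfl⟩ := x.exists_rep
  have := tendsto_measure_iInter_atTop (μ := A.μ.prod A.μ)
    (s := fun n : ℕ => {p | (n : ℝ) < dist p.1 p.2}) (fun n => (ms _ _).nullMeasurableSet)
    (fun m n h p (k : _ < _) => (lt_of_le_of_lt (Nat.cast_le.2 h) k : (m : ℝ) < _)) ⟨0, measure_ne_top _ _⟩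
  rw [eq_empty_of_forall_notMem (s := ⋂ _, _) fun p h => (exists_nat_gt (dist p.1 p.2)).elim
    fun n k => k.not_gt (mem_iInter.1 h n), measure_empty] at this
  obtain ⟨R, hR⟩ := (((ENNReal.tendsto_toReal ENNReal.zero_ne_top).comp this).eventually
    (gt_mem_nhds (mul_pos a (sub_pos.2 b)))).exists
  obtain ⟨n, ⟨s, c, d⟩, e⟩ := ((mapClusterPt_iff_frequently.1 h
    _ ((op (U := {z | ∃ s < (R : ℝ) + 1, Φ s z < ε * (1 - ε)}) fun z ⟨s, c, d⟩ =>
      ⟨min (R + 1 - s) ((ε * (1 - ε) - Φ s z) / 2), lt_min (by linarith) (by linarith),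
        fun b η e f => ⟨s + η, by linarith [(lt_min_iff.1 e).1], by
          linarith [(lt_min_iff.1 e).2, key f s]⟩⟩).mem_nhds ⟨R, lt_add_one _, hR⟩)).and_eventually
    (eventually_ge_atTop (R + 1))).exists
  exact d.not_ge (y3 a.le b.le (c.trans_le (by rw [Nat.abs_cast]; exact_mod_cast e)))

theorem con (n : ℕ → ℝ) (ε : ℕ → ℝ≥0) (h : Tendsto (fun k => (ε k : ℝ)) atTop (𝓝 0)) :
    Tendsto (fun k => cl (y (ε k) (n k))) atTop (𝓝 (cl (y 0 0))) := by
  refine cv (fun x c => ?_) fun x c U u => ?_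
  · have z : ∀ s > 0, Φ s x = 0 := fun s a => by_contra fun b => by
      obtain ⟨A, rfl⟩ := x.exists_rep
      obtain ⟨r, p, q⟩ := exists_between
        (lt_of_le_of_ne (show 0 ≤ Φ s (Quot.mk _ A) from measureReal_nonneg) (Ne.symm b))
      obtain ⟨k, ⟨t, d, e⟩, f⟩ := ((mapClusterPt_iff_frequently.1 c
        _ ((op (U := {z | ∃ t > s / 2, r < Φ t z}) fun z ⟨t, c, d⟩ =>
          ⟨min (t - s / 2) ((Φ t z - r) / 2), lt_min (by linarith) (by linarith),
            fun b η e f => ⟨t - η, by linarith [(lt_min_iff.1 e).1], by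
              have := key (sym f) (t - η)
              rw [sub_add_cancel] at this
              linarith [(lt_min_iff.1 e).2]⟩⟩).mem_nhds ⟨s, half_lt_self a, q⟩)).and_eventually
        (h.eventually (gt_mem_nhds (lt_min (half_pos a) (half_pos p))))).exists
      linarith [tb _ _ (y2 (ε k) (n k)) ((lt_min_iff.1 f).1.trans d).le, (lt_min_iff.1 f).2]
    obtain ⟨A, rfl⟩ := x.exists_rep
    have : A.μ.prod A.μ {p | 0 < dist p.1 p.2} = 0 := measure_mono_null (fun p a =>
      mem_iUnion.2 (exists_nat_one_div_lt (show 0 < dist p.1 p.2 from a))) (measure_iUnion_null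
        (s := fun k : ℕ => {p : A.X × A.X | 1 / ((k : ℝ) + 1) < dist p.1 p.2}) fun k : ℕ =>
        (measureReal_eq_zero_iff (measure_ne_top _ _)).1 (z (1 / (k + 1)) (by positivity)))
    obtain ⟨p, hp⟩ := ((Measure.measure_prod_null (ms _ _)).1 this).exists
    have m : L.map (fun _ => p) = A.μ := by
      rw [← A.μ.map_id, Measure.map_congr (f := id) (g := fun _ => p) (measure_mono_null
        (fun z a => dist_pos.2 (Ne.symm a)) hp)]
      simp [Measure.map_const]
    refine mem_closure_iff.2 fun U u a => ?_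
    obtain ⟨δ, b, c⟩ := u _ a
    exact ⟨_, c _ (lt_of_le_of_lt (iInf₂_le_of_le 0 ⟨A, _, rfl, rfl, _, w 0 0, univ,
      measurable_const, m, mw _ _, rfl, .univ, by simp, fun s _ t _ => by
        change |dist p p - dist (w 0 0 s) (w 0 0 t)| ≤ _
        simp [w]⟩ le_rfl) b), rfl⟩
  · obtain ⟨V, a, b, d⟩ := mem_nhds_iff.1 u
    obtain ⟨_, e, rfl⟩ := mem_closure_iff.1 c V b d
    obtain ⟨δ, p, q⟩ := b _ e
    have : ∀ᶠ k in atTop, (ε k : ℝ≥0∞) < δ :=
      (ENNReal.tendsto_coe.2 ((NNReal.tendsto_coe (x := 0)).1 h)).eventually (gt_mem_nhds p)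
    exact this.mono fun k f => a (q _ ((iInf₂_le (ε k) (y2 _ _)).trans_lt f))

theorem result : ¬ T2Space F ∧ ¬ MetrizableSpace F := by
  suffices ¬ T2Space F from ⟨this, fun _ => this inferInstance⟩
  intro
  obtain ⟨U, V, a, b, c, d, e⟩ := t2_separation (X := F) (x := ⟨∅, isClosed_empty⟩) (y := cl (y 0 0))
    fun h => (congrArg Subtype.val h).ge (subset_closure rfl)
  choose n hn using fun k : ℕ => ((esc (ε := 1 / (k + 2)) (by positivity) (by
    rw [div_lt_one (by positivity)]; linarith [k.cast_nonneg (α := ℝ)])).eventually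
      (a.mem_nhds c)).exists
  obtain ⟨k, hk⟩ := ((con (fun k => n k) (fun k => ⟨1 / (k + 2), by positivity⟩)
    (tendsto_const_nhds.div_atTop (tendsto_atTop_add_const_right _ _
      tendsto_natCast_atTop_atTop))).eventually (b.mem_nhds d)).exists
  exact disjoint_left.1 e (hn k) hk

end Pool.Agent.Results.MP_3b4475_gt.Main
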